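import Mathlib
import Pool.Agent.Lib.MP_6fbfae_gt_FG.Fin
import Pool.Agent.Lib.MP_6fbfae_gt_FG.Pub

/-!
# MP_6fbfae_gt: sequential free topological groups have sequential squares

The free topological group `FTG X` and the free abelian topological group `FTA X` (in the sense of
Markov) are defined in `Pool/Agent/Lib/MP_6fbfae_gt_FG/Defs.lean`: the free group, the free abelian
group, with the finest group topology for which the map `X → FTG X`, `X → FTA X` is continuous.
`SeqPowers`, `SeqPowersAdd` are defined in `Pool/Agent/Lib/MP_6fbfae_gt_FG/Pub.lean`.
-/

set_option autoImplicit false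

open scoped Topology

namespace Pool.Agent.Results.MP_6fbfae_gt.FreeGroups

open Pool.Agent.MP6fbFG

universe u v

/-- Let `Φ` be the free topological group or the free abelian topological group of a topological
space `X` (in the abelian case let `Φ` be Hausdorff). If `Φ` is sequential, then every quotient group
`G` of every closed subgroup `C` of a finite power of `Φ` has a sequential square, and all finite
powers of `G` are sequential. -/
theorem result :
    (∀ (X : Type u) [TopologicalSpace X], SequentialSpace (FTG X) →
      SeqPowers.{u, v} (FTG X)) ∧
    (∀ (X : Type u) [TopologicalSpace X] [T2Space (FTA X)], SequentialSpace (FTA X) →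
      SeqPowersAdd.{u, v} (FTA X)) :=
  ⟨fun X _ hX m C hC G _ _ _ q hq => main_grp X hX m C hC G q hq,
    fun X _ hT hX m C hC G _ _ _ q hq => main_ab X hT hX m C hC G q hq⟩

end Pool.Agent.Results.MP_6fbfae_gt.FreeGroups
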