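import Pool.Agent.Lib.MP_6fbfae_gt.CZ

set_option autoImplicit false

namespace Pool.Agent.Results.MP_6fbfae_gt.FunctionGroups

open Topology Filter

universe u v

/-- Let `X` be a topological space, `F` a discrete group and `G = C(X, F)` the group of the
continuous maps with the compact-open topology. Suppose that one of the following holds.

* Every sequence of clopen sets of which each compact set meets only finitely many has a
  subsequence all of whose tails have a closed union (all k-spaces and all P-spaces have this
  property).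
* There is a family of compact sets with a dense union which has fewer than `𝔟` members: all
  families of functions `ℕ → ℕ` indexed by it are bounded modulo finite sets (for example, a
  countable family).
* All points outside some compact set are P-points (for example, isolated points).

If `G` is sequential, then so are `G × G` and all finite powers of `G`. -/
theorem result {X : Type u} {F : Type v} [TopologicalSpace X] [Group F] [TopologicalSpace F]
    [DiscreteTopology F]
    (hX : (∀ U : ℕ → Set X, (∀ n, IsClopen (U n)) →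
        (∀ K : Set X, IsCompact K → ∀ᶠ n in atTop, Disjoint K (U n)) →
          ∃ φ : ℕ → ℕ, StrictMono φ ∧ ∀ m, IsClosed (⋃ n, U (φ (m + n)))) ∨
      (∃ 𝒦 : Set (Set X), (∀ K ∈ 𝒦, IsCompact K) ∧ Dense (⋃₀ 𝒦) ∧
        ∀ g : 𝒦 → ℕ → ℕ, ∃ h : ℕ → ℕ, ∀ K, ∀ᶠ n in atTop, g K n ≤ h n) ∨
      (∃ K : Set X, IsCompact K ∧
        ∀ x, x ∉ K → ∀ O : ℕ → Set X, (∀ n, O n ∈ 𝓝 x) → ⋂ n, O n ∈ 𝓝 x))
    (hG : SequentialSpace C(X, F)) :
    SequentialSpace (C(X, F) × C(X, F)) ∧ ∀ n : ℕ, SequentialSpace (Fin n → C(X, F)) := by
  have h : Pool.Agent.MP_6fbfae_gt.Hyp X := by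
    rcases hX with h | ⟨𝒦, hK, hd, hb⟩ | h
    · refine Or.inl fun T hT => ?_
      refine h (fun n => (T n : Set X)) (fun n => (T n).isClopen) fun K hK => ?_
      filter_upwards [hT K hK] with n hn
      exact Set.disjoint_left.2 hn
    · refine Or.inr (Or.inl ⟨𝒦, fun K => K.1, fun K => hK K.1 K.2, ?_, hb⟩)
      rwa [← Set.sUnion_eq_iUnion]
    · exact Or.inr (Or.inr h)
  exact ⟨Pool.Agent.MP_6fbfae_gt.sq_sequential hG h,
    Pool.Agent.MP_6fbfae_gt.pow_sequential hG h⟩

end Pool.Agent.Results.MP_6fbfae_gt.FunctionGroups
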